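import Pool.Agent.Helper71.UB.Bets1

/-!
# Project UB, module B2: the first family of bets, complete bipartite graphs
-/

set_option autoImplicit false

namespace Pool.Agent.Helper65.CG

open scoped Classical
open Pool.Agent.Helper65.CliqueGame

variable {n q m : ℕ}

private theorem b2_choose_pos (X : Finset (Fin n)) : 0 < n.choose X.card := by
  apply Nat.choose_pos
  have := Finset.card_le_univ X
  rwa [Fintype.card_fin] at this

private theorem b2_sum (n : ℕ) :
    ∑ X : Finset (Fin n), (1 : ℝ) / (n.choose X.card : ℝ) = n + 1 := by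
  have h1 : ∑ X : Finset (Fin n), (1 : ℝ) / (n.choose X.card : ℝ) =
      ∑ k ∈ Finset.range (n + 1), ∑ X ∈ (Finset.univ : Finset (Fin n)).powersetCard k,
        (1 : ℝ) / (n.choose X.card : ℝ) := by
    have h2 := Finset.sum_powerset (Finset.univ : Finset (Fin n))
      (fun X => (1 : ℝ) / (n.choose X.card : ℝ))
    rw [Finset.powerset_univ, Finset.card_univ, Fintype.card_fin] at h2
    exact h2
  rw [h1]
  have h3 : ∀ k ∈ Finset.range (n + 1), ∑ X ∈ (Finset.univ : Finset (Fin n)).powersetCard k,
        (1 : ℝ) / (n.choose X.card : ℝ) = 1 := by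
    intro k hk
    have h4 : ∀ X ∈ (Finset.univ : Finset (Fin n)).powersetCard k,
        (1 : ℝ) / (n.choose X.card : ℝ) = 1 / (n.choose k : ℝ) := by
      intro X hX
      rw [(Finset.mem_powersetCard.1 hX).2]
    rw [Finset.sum_congr rfl h4, Finset.sum_const, Finset.card_powersetCard, Finset.card_univ,
      Fintype.card_fin, nsmul_eq_mul]
    have h5 : (0 : ℝ) < n.choose k := by
      exact_mod_cast Nat.choose_pos (Nat.lt_succ_iff.1 (Finset.mem_range.1 hk))
    field_simp
  rw [Finset.sum_congr rfl h3, Finset.sum_const, Finset.card_range, nsmul_eq_mul, mul_one]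
  push_cast
  ring

theorem bet1_ex (hn : 2 ≤ n) :
    ∃ β : Finset (Sym2 (Fin n)) → ℝ, (∀ W, 0 ≤ β W) ∧ ∑ W, β W ≤ 1 ∧
      ∀ (ℓ : Sym2 (Fin n) → ℕ) (C : ℝ), 1 ≤ C → val β ℓ ≤ C →
        Bet1 ℓ (Real.logb 2 C + 2 * Lg n + 3) := by
  have hn0 : (0 : ℝ) < n := by
    have : 0 < n := by omega
    exact_mod_cast this
  have hn1 : (0 : ℝ) < (n : ℝ) + 1 := by linarith
  set α : Finset (Fin n) × Finset (Fin n) → ℝ := fun i =>
    (1 / ((n : ℝ) + 1)) * (1 / (n.choose i.1.card : ℝ)) *
      ((1 / ((n : ℝ) + 1)) * (1 / (n.choose i.2.card : ℝ))) with hα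
  have hα0 : ∀ i, 0 ≤ α i := by
    intro i
    rw [hα]
    positivity
  obtain ⟨β, hβ0, hβs, hβ⟩ := push (n := n) α hα0 (fun i => join i.1 i.2)
  refine ⟨β, hβ0, ?_, ?_⟩
  · rw [hβs]
    have h1 : ∑ i, α i = (∑ D : Finset (Fin n), (1 / ((n : ℝ) + 1)) *
        (1 / (n.choose D.card : ℝ))) * (∑ X : Finset (Fin n), (1 / ((n : ℝ) + 1)) *
        (1 / (n.choose X.card : ℝ))) := by
      rw [hα, Fintype.sum_prod_type, Finset.sum_mul]
      apply Finset.sum_congr rfl
      intro D _
      rw [Finset.mul_sum]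
    have h2 : ∑ D : Finset (Fin n), (1 / ((n : ℝ) + 1)) * (1 / (n.choose D.card : ℝ)) = 1 := by
      rw [← Finset.mul_sum, b2_sum]
      field_simp
    rw [h1, h2]
    norm_num
  · intro ℓ C hC hv D X hX hal
    have h1 := hβ ℓ {(D, X)} (by
      intro i hi
      rw [Finset.mem_singleton] at hi
      rw [hi]
      exact hal)
    rw [Finset.sum_singleton] at h1
    have hcD : (0 : ℝ) < n.choose D.card := by exact_mod_cast b2_choose_pos D
    have hcX : (0 : ℝ) < n.choose X.card := by exact_mod_cast b2_choose_pos X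
    have hC0 : 0 < C := by linarith
    have h2 : (2 : ℝ) ^ (ga ℓ (join D X)) ≤
        C * (((n : ℝ) + 1) * ((n : ℝ) + 1) * n.choose D.card * n.choose X.card) := by
      have h3 : α (D, X) * (((n : ℝ) + 1) * ((n : ℝ) + 1) * n.choose D.card * n.choose X.card) =
          1 := by
        rw [hα]
        show (1 / ((n : ℝ) + 1)) * (1 / (n.choose D.card : ℝ)) *
          ((1 / ((n : ℝ) + 1)) * (1 / (n.choose X.card : ℝ))) *
          (((n : ℝ) + 1) * ((n : ℝ) + 1) * n.choose D.card * n.choose X.card) = 1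
        field_simp
      have h4 : (0 : ℝ) ≤ ((n : ℝ) + 1) * ((n : ℝ) + 1) * n.choose D.card * n.choose X.card := by
        positivity
      have h5 := mul_le_mul_of_nonneg_right (h1.trans hv) h4
      have h6 : α (D, X) * (2 : ℝ) ^ (ga ℓ (join D X)) *
          (((n : ℝ) + 1) * ((n : ℝ) + 1) * n.choose D.card * n.choose X.card) =
          (2 : ℝ) ^ (ga ℓ (join D X)) := by
        calc α (D, X) * (2 : ℝ) ^ (ga ℓ (join D X)) *
          (((n : ℝ) + 1) * ((n : ℝ) + 1) * n.choose D.card * n.choose X.card) =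
            (α (D, X) * (((n : ℝ) + 1) * ((n : ℝ) + 1) * n.choose D.card * n.choose X.card)) *
              (2 : ℝ) ^ (ga ℓ (join D X)) := by ring
          _ = (2 : ℝ) ^ (ga ℓ (join D X)) := by rw [h3, one_mul]
      have h7 : α (D, X) * (2 : ℝ) ^ (ga ℓ (join (D, X).1 (D, X).2)) *
          (((n : ℝ) + 1) * ((n : ℝ) + 1) * n.choose D.card * n.choose X.card) =
          (2 : ℝ) ^ (ga ℓ (join D X)) := h6
      rw [h7] at h5
      exact h5
    have h3 : ga ℓ (join D X) ≤ Real.logb 2 (C * (((n : ℝ) + 1) * ((n : ℝ) + 1) *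
        n.choose D.card * n.choose X.card)) := by
      rw [Real.le_logb_iff_rpow_le (by norm_num) (by positivity)]
      exact h2
    have h4 : Real.logb 2 (C * (((n : ℝ) + 1) * ((n : ℝ) + 1) *
        n.choose D.card * n.choose X.card)) = Real.logb 2 C + (Real.logb 2 ((n : ℝ) + 1) +
        Real.logb 2 ((n : ℝ) + 1) + lb (n.choose D.card) + lb (n.choose X.card)) := by
      rw [Real.logb_mul (by positivity) (by positivity),
        Real.logb_mul (by positivity) (by positivity),
        Real.logb_mul (by positivity) (by positivity),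
        Real.logb_mul (by positivity) (by positivity)]
      rfl
    have h5 : Real.logb 2 ((n : ℝ) + 1) ≤ Lg n + 1 := by
      have h6 : Real.logb 2 ((n : ℝ) * 2) = Lg n + 1 := by
        rw [Real.logb_mul (by positivity) (by norm_num), Real.logb_self_eq_one (by norm_num)]
        rfl
      rw [← h6]
      apply Real.logb_le_logb_of_le (by norm_num) hn1
      have : (1 : ℝ) ≤ n := by exact_mod_cast (by omega : 1 ≤ n)
      linarith
    have h6 : lb (n.choose D.card) ≤ D.card * Lg n := by
      unfold lb Lg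
      rw [← Real.logb_pow]
      apply Real.logb_le_logb_of_le (by norm_num) hcD
      exact_mod_cast Nat.choose_le_pow n D.card
    have hXn : X.card ≤ n := by
      have := Finset.card_le_univ X
      rwa [Fintype.card_fin] at this
    have h7 := choose_bound n X.card (Finset.card_pos.2 hX) hXn
    linarith

end Pool.Agent.Helper65.CG
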